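import Pool.Agent.Helper3.SP.Ord

/-!
# Distributivity
-/

namespace Pool.Agent.Helper3.SP

open Cardinal Set

/-- Directed closed posets are distributive. -/
theorem dist_gen {P : Type} [Preorder P] {κ : Cardinal.{0}} (hκ : ℵ₀ ≤ κ) (hP : DirClosed κ P)
    {I : Type} (hI : #I < κ) (D : I → Set P) (hD : ∀ i p, ∃ q ≤ p, q ∈ D i)
    (hO : ∀ i p q, q ≤ p → p ∈ D i → q ∈ D i) (p : P) : ∃ q ≤ p, ∀ i, q ∈ D i := by
  classical
  obtain ⟨lo, wf⟩ := exists_wellFoundedLT I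
  -- a chain indexed by a subset of `I`, together with `p`, has a lower bound
  have hlb : ∀ (T : Set I) (f : I → P), (∀ t ∈ T, f t ≤ p) →
      (∀ s ∈ T, ∀ t ∈ T, t < s → f s ≤ f t) → ∃ r, r ≤ p ∧ ∀ t ∈ T, r ≤ f t := by
    intro T f h1 h2
    have hcard : #(insert p (f '' T) : Set P) < κ := by
      refine lt_of_le_of_lt (mk_insert_le) ?_
      refine add_lt_of_lt hκ ?_ (lt_of_lt_of_le one_lt_aleph0 hκ)
      exact lt_of_le_of_lt (mk_image_le.trans (mk_set_le T)) hI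
    obtain ⟨r, hr⟩ := hP (insert p (f '' T)) hcard (by
      rintro a (rfl | ⟨s, hs, rfl⟩) b (rfl | ⟨t, ht, rfl⟩)
      · exact ⟨_, Or.inl rfl, le_rfl, le_rfl⟩
      · exact ⟨f t, Or.inr ⟨t, ht, rfl⟩, h1 t ht, le_rfl⟩
      · exact ⟨f s, Or.inr ⟨s, hs, rfl⟩, le_rfl, h1 s hs⟩
      · rcases lt_trichotomy s t with h | h | h
        · exact ⟨f t, Or.inr ⟨t, ht, rfl⟩, h2 t ht s hs h, le_rfl⟩
        · subst h
          exact ⟨f s, Or.inr ⟨s, hs, rfl⟩, le_rfl, le_rfl⟩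
        · exact ⟨f s, Or.inr ⟨s, hs, rfl⟩, le_rfl, h2 s hs t ht h⟩)
    exact ⟨r, hr p (Or.inl rfl), fun t ht => hr (f t) (Or.inr ⟨t, ht, rfl⟩)⟩
  -- the recursion
  let step : (s : I) → ((t : I) → t < s → P) → P := fun s f =>
    if h : ∃ r, r ≤ p ∧ ∀ t (ht : t < s), r ≤ f t ht then (hD s h.choose).choose else p
  let f : I → P := wf.wf.fix step
  have hf : ∀ s, f s = step s (fun t _ => f t) := fun s => wf.wf.fix_eq step s
  have key : ∀ s, f s ∈ D s ∧ f s ≤ p ∧ ∀ t, t < s → f s ≤ f t := by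
    intro s
    induction s using wf.wf.induction with
    | _ s ih =>
      have h : ∃ r, r ≤ p ∧ ∀ t (_ : t < s), r ≤ f t := by
        obtain ⟨r, hr1, hr2⟩ := hlb {t | t < s} f (fun t ht => (ih t ht).2.1)
          (fun a ha t _ hta => (ih a ha).2.2 t hta)
        exact ⟨r, hr1, fun t ht => hr2 t ht⟩
      have e : f s = (hD s h.choose).choose := by
        rw [hf s]
        exact dif_pos h
      have h1 := (hD s h.choose).choose_spec
      have h2 := h.choose_spec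
      rw [e]
      exact ⟨h1.2, h1.1.trans h2.1, fun t ht => h1.1.trans (h2.2 t ht)⟩
  obtain ⟨r, hr1, hr2⟩ := hlb univ f (fun t _ => (key t).2.1) (fun s _ t _ hts => (key s).2.2 t hts)
  exact ⟨r, hr1, fun i => hO i (f i) r (hr2 i trivial) (key i).1⟩

variable {A L : Type} [LinearOrder A] [LinearOrder L]

/-- The coarse order is distributive. -/
theorem dist (h : Hyp A L) (hdir : DirClosed #A (PF A L)) {I : Type} (hI : #I < #A)
    (D : I → Set (PC A L))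
    (hD : ∀ i p, ∃ q ≤ p, q ∈ D i) (hO : ∀ i p q, q ≤ p → p ∈ D i → q ∈ D i) (p : PC A L) :
    ∃ q ≤ p, ∀ i, q ∈ D i := by
  obtain ⟨q, hq, hqD⟩ := dist_gen h.unc.le hdir hI
    (fun i => {q : PF A L | (⟨q.1, q.2⟩ : PC A L) ∈ D i}) (by
      intro i p
      obtain ⟨r, hr, hrD⟩ := hD i ⟨p.1, p.2⟩
      exact ⟨⟨lift r.1 p.1, Sm_lift r.2⟩, lift_leF hr,
        hO i r ⟨lift r.1 p.1, Sm_lift r.2⟩ (lift_leC hr) hrD⟩) (by
      intro i p q hqp hpD
      exact hO i ⟨p.1, p.2⟩ ⟨q.1, q.2⟩ (LeF.leC hqp) hpD) ⟨p.1, p.2⟩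
  exact ⟨⟨q.1, q.2⟩, LeF.leC hq, hqD⟩

end Pool.Agent.Helper3.SP
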